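import Pool.Agent.H79.BC.Lin
import Pool.Agent.H99.RR.YDef

/-! # BC.Hilb : the number of independent forms does not change under extension of the field (about 120 lines)

Over `K0` the space `frm v I m` is finite-dimensional (`v i > 0`: the weighted homogeneous polynomials of degree `m` are spanned by the finitely many monomials of weight `m`).  Let `f_1, .., f_r` be weighted homogeneous of degree `m` over `K0`
whose classes are a basis of `frm v I m` (`r = finrank`).  The classes of `map f_j` in `HR (map '' I)` are in `frm v (map '' I) m` and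
(a) span it: a weighted homogeneous polynomial of degree `m` over `K` is a `K`-combination of monomials `z^α` of weight `m`; over `K0` `z^α - ∑ c_j f_j ∈ span I`, apply `map` (`Ideal.mem_map_of_mem`, `Ideal.map_span`);
(b) are independent over `K`: if `∑ c_j map f_j ∈ span (map '' I)` then for every functional `ψ` which vanishes on `span I`: `∑ c_j ψ (f_j) = 0` (`fx_mem`, `fx_map`); choose `ψ` with `ψ (f_j) = δ_ij` (the classes of `f_j` in the quotient are independent:
extend to a basis, or `LinearIndependent` and `Module.Basis.extend`/`exists_dual_map..`), so `c_i = 0`.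
Hence `finrank K (frm v (map '' I) m) = r` (`finrank_eq_card_basis` or `LinearIndependent` + `finrank_span_eq_card`). -/

namespace H79.BC

open MvPolynomial RR Module

variable {K0 K : Type} [Field K0] [Field K] [Algebra K0 K] {s : ℕ}

private theorem Hilb_map_hom {v : Fin s → ℕ} {m : ℕ} {p : MvPolynomial (Fin s) K0}
    (hp : p ∈ weightedHomogeneousSubmodule K0 v m) :
    map (algebraMap K0 K) p ∈ weightedHomogeneousSubmodule K v m := by
  rw [mem_weightedHomogeneousSubmodule] at hp ⊢
  intro d hd
  refine hp fun h0 => hd ?_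
  rw [coeff_map, h0, map_zero]

/-- the extension of scalars on the coordinate rings -/
private noncomputable def Hilb_phi (I : Set (MvPolynomial (Fin s) K0)) :
    HR I →+* HR (K := K) (map (algebraMap K0 K) '' I) :=
  Ideal.quotientMap _ (map (algebraMap K0 K)) (by
    rw [Ideal.span_le]
    intro f hf
    exact Ideal.subset_span ⟨f, hf, rfl⟩)

private theorem Hilb_phi_mk (I : Set (MvPolynomial (Fin s) K0)) (f : MvPolynomial (Fin s) K0) :
    Hilb_phi (K := K) I (Ideal.Quotient.mk (Ideal.span I) f) =
      Ideal.Quotient.mk (Ideal.span (map (algebraMap K0 K) '' I)) (map (algebraMap K0 K) f) :=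
  Ideal.quotientMap_mk

private theorem Hilb_phi_smul (I : Set (MvPolynomial (Fin s) K0)) (c : K0) (x : HR I) :
    Hilb_phi (K := K) I (c • x) = algebraMap K0 K c • Hilb_phi (K := K) I x := by
  obtain ⟨f, rfl⟩ := Ideal.Quotient.mk_surjective x
  have h1 : c • (Ideal.Quotient.mk (Ideal.span I) f) = Ideal.Quotient.mk (Ideal.span I) (C c * f) := by
    rw [← smul_eq_C_mul]
    rfl
  have h2 : algebraMap K0 K c • (Ideal.Quotient.mk (Ideal.span (map (algebraMap K0 K) '' I)) (map (algebraMap K0 K) f)) =
      Ideal.Quotient.mk (Ideal.span (map (algebraMap K0 K) '' I)) (C (algebraMap K0 K c) * map (algebraMap K0 K) f) := by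
    rw [← smul_eq_C_mul]
    rfl
  rw [h1, Hilb_phi_mk, Hilb_phi_mk, h2, map_mul, map_C]

theorem hilb_bc {v : Fin s → ℕ} (hv : ∀ i, 0 < v i) (I : Set (MvPolynomial (Fin s) K0)) (m : ℕ) :
    finrank K (frm v (map (algebraMap K0 K) '' I) m) = finrank K0 (frm v I m) := by
  classical
  have _ := hv
  set b := Basis.ofVectorSpace K0 (frm v I m) with hb
  set φ := Hilb_phi (K := K) I with hφ
  have hF : ∀ i, ∃ f : MvPolynomial (Fin s) K0, f ∈ weightedHomogeneousSubmodule K0 v m ∧
      Ideal.Quotient.mk (Ideal.span I) f = (b i : HR I) := fun i => by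
    obtain ⟨f, h1, h2⟩ := (b i).2
    exact ⟨f, h1, h2⟩
  choose F hF1 hF2 using hF
  have hmem : ∀ f ∈ weightedHomogeneousSubmodule K0 v m,
      φ (Ideal.Quotient.mk (Ideal.span I) f) ∈ frm v (map (algebraMap K0 K) '' I) m := fun f hf => by
    rw [hφ, Hilb_phi_mk]
    exact ⟨map (algebraMap K0 K) f, Hilb_map_hom hf, rfl⟩
  have he : ∀ i, φ (b i : HR I) ∈ frm v (map (algebraMap K0 K) '' I) m := fun i => by
    rw [← hF2 i]
    exact hmem _ (hF1 i)
  -- independence
  have hli : LinearIndependent K (fun i => (⟨φ (b i : HR I), he i⟩ : frm v (map (algebraMap K0 K) '' I) m)) := by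
    rw [linearIndependent_iff']
    intro t g hg j hj
    have h1 : ∑ i ∈ t, g i • φ (b i : HR I) = 0 := by
      have h2 := congrArg (Submodule.subtype (frm v (map (algebraMap K0 K) '' I) m)) hg
      rw [map_sum, map_zero] at h2
      exact h2
    have h3 : (∑ i ∈ t, C (g i) * map (algebraMap K0 K) (F i)) ∈ Ideal.span (map (algebraMap K0 K) '' I) := by
      rw [← Ideal.Quotient.eq_zero_iff_mem, map_sum, ← h1]
      refine Finset.sum_congr rfl fun i _ => ?_
      rw [← hF2 i, hφ, Hilb_phi_mk, ← smul_eq_C_mul]
      rfl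
    obtain ⟨ψ0, hψ0⟩ := LinearMap.exists_extend (b.coord j)
    set ψ : MvPolynomial (Fin s) K0 →ₗ[K0] K0 :=
      ψ0 ∘ₗ (Ideal.Quotient.mkₐ K0 (Ideal.span I)).toLinearMap with hψ
    have h4 : ∀ h ∈ Ideal.span I, ψ h = 0 := fun h hh => by
      have h5 : (Ideal.Quotient.mkₐ K0 (Ideal.span I)) h = 0 := by
        rw [Ideal.Quotient.mkₐ_eq_mk, Ideal.Quotient.eq_zero_iff_mem]
        exact hh
      rw [hψ, LinearMap.comp_apply, AlgHom.toLinearMap_apply, h5, map_zero]
    have h6 : ∀ i, ψ (F i) = if i = j then 1 else 0 := fun i => by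
      have h7 : (Ideal.Quotient.mkₐ K0 (Ideal.span I)) (F i) = ((b i : frm v I m) : HR I) := by
        rw [Ideal.Quotient.mkₐ_eq_mk]
        exact hF2 i
      rw [hψ, LinearMap.comp_apply, AlgHom.toLinearMap_apply, h7]
      have h8 := LinearMap.congr_fun hψ0 (b i)
      rw [LinearMap.comp_apply, Submodule.subtype_apply] at h8
      rw [h8, Basis.coord_apply, Basis.repr_self, Finsupp.single_apply]
    have h9 := fx_mem h4 h3
    have h10 : ∀ t' : Finset _, fx ψ (∑ i ∈ t', C (g i) * map (algebraMap K0 K) (F i)) =
        ∑ i ∈ t', g i * algebraMap K0 K (ψ (F i)) := fun t' => by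
      induction t' using Finset.induction_on with
      | empty =>
        rw [Finset.sum_empty, Finset.sum_empty]
        unfold fx
        rw [support_zero, Finset.sum_empty]
      | insert a t' ha ih =>
        rw [Finset.sum_insert ha, Finset.sum_insert ha, fx_add, ih, fx_smul, fx_map]
    rw [h10 t, Finset.sum_eq_single j] at h9
    · rw [h6 j, if_pos rfl, map_one, mul_one] at h9
      exact h9
    · intro i _ hij
      rw [h6 i, if_neg hij, map_zero, mul_zero]
    · intro hjn
      exact absurd hj hjn
  -- span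
  have hcoe : ∀ x : frm v I m, φ (x : HR I) ∈ Submodule.span K (Set.range fun i => φ (b i : HR I)) := fun x => by
    have h1 : x = ∑ i ∈ (b.repr x).support, (b.repr x) i • b i := by
      conv_lhs => rw [← b.linearCombination_repr x]
      rfl
    have h2 : (x : HR I) = ∑ i ∈ (b.repr x).support, (b.repr x) i • (b i : HR I) := by
      have h3 := congrArg (Submodule.subtype (frm v I m)) h1
      rw [map_sum] at h3
      exact h3
    rw [h2, map_sum]
    refine Submodule.sum_mem _ fun i _ => ?_
    rw [hφ, Hilb_phi_smul]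
    exact Submodule.smul_mem _ _ (Submodule.subset_span ⟨i, rfl⟩)
  have hsp : ⊤ ≤ Submodule.span K
      (Set.range fun i => (⟨φ (b i : HR I), he i⟩ : frm v (map (algebraMap K0 K) '' I) m)) := by
    rintro ⟨w, p, hp, rfl⟩ -
    have hp' : IsWeightedHomogeneous v p m := (mem_weightedHomogeneousSubmodule K v m p).1 hp
    have h1 : (Ideal.Quotient.mkₐ K (Ideal.span (map (algebraMap K0 K) '' I))).toLinearMap p ∈
        Submodule.span K (Set.range fun i => φ (b i : HR I)) := by
      have h2 : p = ∑ α ∈ p.support, monomial α (coeff α p) := (support_sum_monomial_coeff p).symm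
      rw [h2, map_sum]
      refine Submodule.sum_mem _ fun α hα => ?_
      have h3 : Finsupp.weight v α = m := hp' (mem_support_iff.1 hα)
      have h4 : (monomial α (1 : K0)) ∈ weightedHomogeneousSubmodule K0 v m := by
        rw [mem_weightedHomogeneousSubmodule]
        exact isWeightedHomogeneous_monomial v α 1 h3
      have h5 := hcoe ⟨Ideal.Quotient.mk (Ideal.span I) (monomial α (1 : K0)), ⟨_, h4, rfl⟩⟩
      have h6 : (Ideal.Quotient.mkₐ K (Ideal.span (map (algebraMap K0 K) '' I))).toLinearMap (monomial α (coeff α p)) =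
          coeff α p • φ (Ideal.Quotient.mk (Ideal.span I) (monomial α (1 : K0))) := by
        rw [hφ, Hilb_phi_mk, map_monomial, map_one]
        have h7 : (monomial α (coeff α p) : MvPolynomial (Fin s) K) = coeff α p • monomial α 1 := by
          rw [smul_monomial, smul_eq_mul, mul_one]
        rw [h7, map_smul]
        rfl
      rw [h6]
      exact Submodule.smul_mem _ _ h5
    have h8 : Set.range (fun i => φ (b i : HR I)) = (frm v (map (algebraMap K0 K) '' I) m).subtype ''
        Set.range (fun i => (⟨φ (b i : HR I), he i⟩ : frm v (map (algebraMap K0 K) '' I) m)) := by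
      rw [← Set.range_comp]
      rfl
    rw [h8, ← Submodule.map_span] at h1
    obtain ⟨y, hy, hy2⟩ := h1
    have h9 : y = ⟨(Ideal.Quotient.mkₐ K (Ideal.span (map (algebraMap K0 K) '' I))).toLinearMap p, ⟨p, hp, rfl⟩⟩ :=
      Subtype.ext hy2
    rw [← h9]
    exact hy
  have hB := Basis.mk hli hsp
  rw [finrank_eq_nat_card_basis hB, finrank_eq_nat_card_basis b]

end H79.BC
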