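import Pool.Agent.H79.BC.Spec
import Pool.Agent.H99.RR.YDef

/-! # BC.Smooth : smoothness and trivial stabilisers under extension of the field (about 150 lines)

`β : BPt (map '' I)` a point over `K`.
`stab_bc`: `exists_spec` for the finite set of the coordinates `β i`: `β0 i := φ (β i)`, `β0 i = 0` iff `β i = 0`; `β0 ≠ 0` and `eval β0 f = 0` for `f ∈ I` (`eval β (map f) = aeval β f` is `0`, apply `φ`: `φ (aeval β f) = aeval β0 f`, `β` with values in `R`).
`smooth_bc`: `T := tan (map '' I) β`, `d := finrank K T`, a basis `w_1, .., w_d` of `T`: a matrix `D` with `∑_l w_j l * D l i = δ_ij` exists (the `w_j` are independent in `K^s`: extend to a basis or take dual functionals, `LinearIndependent` gives a left inverse of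
`Fintype.linearCombination`, `LinearMap.exists_leftInverse_of_injective`).  The span `G` of the vectors `∇f(β) = (eval β (pderiv i (map f)))_i`, `f ∈ I`, has dimension `s - d` (`T` is its annihilator: `Submodule.finrank_add_finrank_orthogonal` or the
dual annihilator), and there are `f_1, .., f_(s-d) ∈ I` with independent `∇f_j(β)` (`exists_linearIndependent`), and a matrix `C` with `∑_l ∇f_i(β) l * C l j = δ_ij`.  `exists_spec` for `F` = the coordinates of `β`, all `w_j l`, all entries of `D`, `C`, (the
values `∇f_j(β) l` are polynomials in `β` so they are in `R` and go to `∇f_j(β0) l`).  Then `φ(w_j) ∈ tan I β0` are `d` independent vectors, so `d ≤ 2`; and the `∇f_j(β0)` are `s - d` independent vectors orthogonal to `tan I β0`, so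
`2 ≤ d` (`finrank (tan I β0) ≤ s - (s - d)`). -/

namespace H79.BC

open MvPolynomial RR Module

variable {K0 K : Type} [Field K0] [IsAlgClosed K0] [Field K] [Algebra K0 K] {s : ℕ}

section linalg

variable {k L : Type} [Field k] [Field L] [Algebra k L]

/-- the gradient of `f` at `b` -/
private noncomputable def sm_g (b : Fin s → L) (f : MvPolynomial (Fin s) k) : Fin s → L :=
  fun i => aeval b (pderiv i f)

/-- the tangent space with coefficients in `L` -/
private noncomputable def sm_T (I : Set (MvPolynomial (Fin s) k)) (b : Fin s → L) : Submodule L (Fin s → L) where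
  carrier := {w | ∀ f ∈ I, ∑ i, w i * sm_g b f i = 0}
  zero_mem' := fun f _ => by simp
  add_mem' := fun {x y} hx hy f hf => by
    have h1 := hx f hf
    have h2 := hy f hf
    simp only [Pi.add_apply, add_mul, Finset.sum_add_distrib, h1, h2, add_zero]
  smul_mem' := fun c x hx f hf => by
    have h1 := hx f hf
    simp only [Pi.smul_apply, smul_eq_mul, mul_assoc, ← Finset.mul_sum, h1, mul_zero]

private theorem sm_right {m : ℕ} {g : Fin m → Fin s → L} (hg : LinearIndependent L g) :
    ∃ C : Matrix (Fin s) (Fin m) L, (Matrix.of g) * C = 1 := by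
  obtain ⟨Λ, hΛ⟩ := LinearMap.exists_leftInverse_of_injective (Fintype.linearCombination L g)
    (LinearMap.ker_eq_bot.2 hg.fintypeLinearCombination_injective)
  refine ⟨Matrix.of fun i k => Λ (fun j => if i = j then 1 else 0) k, ?_⟩
  ext j k
  have h1 : Λ (g j) = Pi.single j 1 := by
    have h2 := congrArg (fun F : (Fin m → L) →ₗ[L] (Fin m → L) => F (Pi.single j 1)) hΛ
    simp only [LinearMap.comp_apply, LinearMap.id_apply] at h2
    rw [Fintype.linearCombination_apply_single, one_smul] at h2
    exact h2
  have h3 := congrFun (LinearMap.pi_apply_eq_sum_univ Λ (g j)) k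
  rw [h1] at h3
  rw [Matrix.mul_apply]
  simp only [Matrix.of_apply]
  rw [Finset.sum_apply] at h3
  simp only [Pi.smul_apply, smul_eq_mul] at h3
  rw [← h3, Matrix.one_apply, Pi.single_apply]
  by_cases h : j = k
  · rw [if_pos h, if_pos h.symm]
  · rw [if_neg h, if_neg fun h' => h h'.symm]

private theorem sm_indep {m : ℕ} {A : Matrix (Fin m) (Fin s) L} {C : Matrix (Fin s) (Fin m) L}
    (h : (A * C).det ≠ 0) : LinearIndependent L (fun j => A j) := by
  rw [Fintype.linearIndependent_iff]
  intro c hc j
  have h1 : Matrix.vecMul c A = 0 := by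
    rw [Matrix.vecMul_eq_sum]
    exact hc
  have h2 : Matrix.vecMul c (A * C) = 0 := by
    rw [← Matrix.vecMul_vecMul, h1, Matrix.zero_vecMul]
  exact congrFun (Matrix.eq_zero_of_vecMul_eq_zero h h2) j

private theorem sm_rank (I : Set (MvPolynomial (Fin s) k)) (b : Fin s → L) :
    ∃ (m : ℕ) (f : Fin m → MvPolynomial (Fin s) k), (∀ j, f j ∈ I) ∧
      LinearIndependent L (fun j => sm_g b (f j)) ∧ finrank L (sm_T I b) + m = s ∧
      ∀ (m' : ℕ) (f' : Fin m' → MvPolynomial (Fin s) k), (∀ j, f' j ∈ I) →
        LinearIndependent L (fun j => sm_g b (f' j)) → m' ≤ m := by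
  obtain ⟨g, hg, hspan, hli⟩ := Submodule.exists_fun_fin_finrank_span_eq L (sm_g b '' I)
  choose f hf hfg using hg
  have hfg' : (fun j => sm_g b (f j)) = g := funext hfg
  obtain ⟨C, hC⟩ := sm_right hli
  refine ⟨_, f, hf, by rw [hfg']; exact hli, ?_, ?_⟩
  · set A : Matrix (Fin (finrank L (Submodule.span L (sm_g b '' I)))) (Fin s) L := Matrix.of g with hA
    have hker : sm_T I b = A.mulVecLin.ker := by
      ext w
      rw [LinearMap.mem_ker, Matrix.mulVecLin_apply]
      constructor
      · intro hw
        funext j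
        have h1 := hw (f j) (hf j)
        rw [hfg j] at h1
        rw [Pi.zero_apply, ← h1]
        unfold Matrix.mulVec dotProduct
        refine Finset.sum_congr rfl fun i _ => ?_
        exact mul_comm _ _
      · intro hw f₁ hf₁
        have h1 : sm_g b f₁ ∈ Submodule.span L (Set.range g) := by
          rw [hspan]
          exact Submodule.subset_span ⟨f₁, hf₁, rfl⟩
        have h2 : ∀ x ∈ Submodule.span L (Set.range g), ∑ i, w i * x i = 0 := by
          intro x hx
          induction hx using Submodule.span_induction with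
          | mem x hx =>
            obtain ⟨j, rfl⟩ := hx
            have h3 := congrFun hw j
            rw [Pi.zero_apply] at h3
            unfold Matrix.mulVec dotProduct at h3
            rw [← h3]
            refine Finset.sum_congr rfl fun i _ => ?_
            exact mul_comm _ _
          | zero => simp
          | add x y _ _ hx hy =>
            simp only [Pi.add_apply, mul_add, Finset.sum_add_distrib, hx, hy, add_zero]
          | smul c x _ hx =>
            simp only [Pi.smul_apply, smul_eq_mul, mul_left_comm, ← Finset.mul_sum, hx, mul_zero]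
        exact h2 _ h1
    have hsur : A.mulVecLin.range = ⊤ := by
      rw [LinearMap.range_eq_top]
      intro y
      refine ⟨C.mulVec y, ?_⟩
      rw [Matrix.mulVecLin_apply, Matrix.mulVec_mulVec, hC, Matrix.one_mulVec]
    have h1 := LinearMap.finrank_range_add_finrank_ker A.mulVecLin
    rw [hsur, finrank_top, ← hker, finrank_fintype_fun_eq_card, finrank_fintype_fun_eq_card,
      Fintype.card_fin, Fintype.card_fin] at h1
    omega
  · intro m' f' hf' hli'
    have h1 := finrank_span_eq_card hli'
    rw [Fintype.card_fin] at h1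
    rw [← h1]
    refine Submodule.finrank_mono (Submodule.span_mono ?_)
    rintro _ ⟨j, rfl⟩
    exact ⟨f' j, hf' j, rfl⟩

end linalg

omit [IsAlgClosed K0] in
private theorem sm_tan {I : Set (MvPolynomial (Fin s) K0)} (b : Fin s → K) :
    tan (map (algebraMap K0 K) '' I) b = sm_T I b := by
  have key : ∀ (f : MvPolynomial (Fin s) K0) (i : Fin s),
      eval b (pderiv i (map (algebraMap K0 K) f)) = sm_g b f i := by
    intro f i
    rw [pderiv_map, eval_map]
    rfl
  ext w
  constructor
  · intro hw f hf
    have h1 := hw (map (algebraMap K0 K) f) ⟨f, hf, rfl⟩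
    simp only [key] at h1
    exact h1
  · rintro hw _ ⟨f, hf, rfl⟩
    have h1 := hw f hf
    simp only [key]
    exact h1

omit [IsAlgClosed K0] in
private theorem sm_tan0 {I : Set (MvPolynomial (Fin s) K0)} (b : Fin s → K0) :
    tan I b = sm_T I b := by
  have key : ∀ (f : MvPolynomial (Fin s) K0) (i : Fin s), eval b (pderiv i f) = sm_g b f i := by
    intro f i
    unfold sm_g
    rw [← coe_aeval_eq_eval]
    rfl
  ext w
  constructor
  · intro hw f hf
    have h1 := hw f hf
    simp only [key] at h1
    exact h1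
  · intro hw f hf
    have h1 := hw f hf
    simp only [key]
    exact h1

omit [IsAlgClosed K0] in
/-- specialisation of a point -/
private theorem sm_spec {I : Set (MvPolynomial (Fin s) K0)} (β : BPt (map (algebraMap K0 K) '' I))
    (R : Subalgebra K0 K) (φ : R →ₐ[K0] K0) (βR : Fin s → R) (hβ : ∀ i, (βR i : K) = β.1 i)
    (hφ : ∀ i, β.1 i ≠ 0 → φ (βR i) ≠ 0) :
    ∃ β0 : BPt I, ∀ i, β0.1 i = φ (βR i) := by
  refine ⟨⟨fun i => φ (βR i), ?_, ?_⟩, fun i => rfl⟩
  · intro h0
    obtain ⟨i, hi⟩ : ∃ i, β.1 i ≠ 0 := by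
      by_contra hno
      push Not at hno
      exact β.2.1 (funext hno)
    exact hφ i hi (congrFun h0 i)
  · intro f hf
    have h1 := β.2.2 _ ⟨f, hf, rfl⟩
    rw [eval_map, ← aeval_def] at h1
    have h2 := comp_aeval_apply βR R.val f
    have h3 : (fun i => R.val (βR i)) = β.1 := funext hβ
    rw [h3, h1] at h2
    have h4 : aeval βR f = 0 := Subtype.ext h2
    have h5 := comp_aeval_apply βR φ f
    rw [h4, map_zero] at h5
    rw [← coe_aeval_eq_eval]
    exact h5.symm

theorem stab_bc {v : Fin s → ℕ} {I : Set (MvPolynomial (Fin s) K0)} (h : ∀ β : BPt I, ∀ e : ℕ, (∀ i, β.1 i ≠ 0 → e ∣ v i) → e = 1)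
    (β : BPt (map (algebraMap K0 K) '' I)) (e : ℕ) (he : ∀ i, β.1 i ≠ 0 → e ∣ v i) : e = 1 := by
  classical
  obtain ⟨R, φ, hR, hφ⟩ := exists_spec (K0 := K0) (Finset.univ.image β.1)
  have hmem : ∀ i, β.1 i ∈ Finset.univ.image β.1 := fun i => Finset.mem_image_of_mem _ (Finset.mem_univ i)
  obtain ⟨β0, hβ0⟩ := sm_spec β R φ (fun i => ⟨β.1 i, hR _ (hmem i)⟩) (fun _ => rfl)
    (fun i hi => hφ _ _ (hmem i) hi)
  refine h β0 e fun i hi => he i fun h0 => hi ?_
  rw [hβ0]
  have h1 : (⟨β.1 i, hR _ (hmem i)⟩ : R) = 0 := Subtype.ext h0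
  rw [h1, map_zero]

theorem smooth_bc {I : Set (MvPolynomial (Fin s) K0)} (h : ∀ β : BPt I, finrank K0 (tan I β.1) = 2)
    (β : BPt (map (algebraMap K0 K) '' I)) : finrank K (tan (map (algebraMap K0 K) '' I) β.1) = 2 := by
  classical
  obtain ⟨m, f, hfI, hli, hfin, hmax⟩ := sm_rank I β.1
  obtain ⟨C, hC⟩ := sm_right hli
  obtain ⟨R, φ, hR, hφ⟩ := exists_spec (K0 := K0)
    (Finset.univ.image β.1 ∪ Finset.univ.image fun p : Fin s × Fin m => C p.1 p.2)
  have hmem : ∀ i, β.1 i ∈ Finset.univ.image β.1 ∪ Finset.univ.image fun p : Fin s × Fin m => C p.1 p.2 :=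
    fun i => Finset.mem_union_left _ (Finset.mem_image_of_mem _ (Finset.mem_univ i))
  have hmemC : ∀ i j, C i j ∈ Finset.univ.image β.1 ∪ Finset.univ.image fun p : Fin s × Fin m => C p.1 p.2 :=
    fun i j => Finset.mem_union_right _ (Finset.mem_image.2 ⟨(i, j), Finset.mem_univ _, rfl⟩)
  set βR : Fin s → R := fun i => ⟨β.1 i, hR _ (hmem i)⟩ with hβR
  obtain ⟨β0, hβ0⟩ := sm_spec β R φ βR (fun _ => rfl) (fun i hi => hφ _ _ (hmem i) hi)
  have hval : ∀ g : MvPolynomial (Fin s) K0, ((aeval βR g : R) : K) = aeval β.1 g := fun g =>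
    comp_aeval_apply βR R.val g
  have hφv : ∀ g : MvPolynomial (Fin s) K0, φ (aeval βR g) = aeval β0.1 g := fun g => by
    have h1 := comp_aeval_apply βR φ g
    have h2 : (fun i => φ (βR i)) = β0.1 := funext fun i => (hβ0 i).symm
    rw [h2] at h1
    exact h1
  obtain ⟨m0, f0, hf0I, hli0, hfin0, hmax0⟩ := sm_rank I β0.1
  -- the gradients at the point stay independent
  have h1 : m ≤ m0 := by
    refine hmax0 m f hfI ?_
    set AR : Matrix (Fin m) (Fin s) R := Matrix.of fun j i => aeval βR (pderiv i (f j)) with hAR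
    set CR : Matrix (Fin s) (Fin m) R := Matrix.of fun i k => ⟨C i k, hR _ (hmemC i k)⟩ with hCR
    have h2 : AR * CR = 1 := by
      ext j k
      have h3 := congrFun (congrFun hC j) k
      rw [Matrix.mul_apply] at h3 ⊢
      rw [AddSubmonoidClass.coe_finsetSum]
      have h4 : (((1 : Matrix (Fin m) (Fin m) R) j k : R) : K) = (1 : Matrix (Fin m) (Fin m) K) j k := by
        rw [Matrix.one_apply, Matrix.one_apply]
        by_cases h : j = k
        · rw [if_pos h, if_pos h]; rfl
        · rw [if_neg h, if_neg h]; rfl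
      rw [h4, ← h3]
      refine Finset.sum_congr rfl fun i _ => ?_
      change ((AR j i : R) : K) * ((CR i k : R) : K) = _
      rw [hAR, hCR]
      simp only [Matrix.of_apply]
      rw [hval]
      rfl
    have h3 : (AR.map φ) * (CR.map φ) = 1 := by
      rw [← Matrix.map_mul, h2]
      exact Matrix.map_one φ (map_zero φ) (map_one φ)
    have h4 := sm_indep (A := AR.map φ) (C := CR.map φ) (by rw [h3, Matrix.det_one]; exact one_ne_zero)
    have h5 : (fun j => (AR.map φ) j) = fun j => sm_g β0.1 (f j) := by
      funext j i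
      exact hφv _
    rw [h5] at h4
    exact h4
  -- independent gradients at the specialisation come from independent gradients
  have h2 : m0 ≤ m := by
    refine hmax m0 f0 hf0I ?_
    obtain ⟨C0, hC0⟩ := sm_right hli0
    set AR : Matrix (Fin m0) (Fin s) R := Matrix.of fun j i => aeval βR (pderiv i (f0 j)) with hAR
    set N : Matrix (Fin m0) (Fin m0) R := AR * C0.map (algebraMap K0 R) with hN
    have h3 : N.map φ = 1 := by
      rw [hN, Matrix.map_mul, Matrix.map_map]
      have h4 : AR.map φ = Matrix.of fun j => sm_g β0.1 (f0 j) := by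
        ext j i
        exact hφv _
      have h5 : C0.map (φ ∘ algebraMap K0 R) = C0 := by
        ext i j
        change φ (algebraMap K0 R (C0 i j)) = C0 i j
        rw [AlgHom.commutes]
        rfl
      rw [h4, h5, hC0]
    have h4 : φ N.det = 1 := by
      have h5 := RingHom.map_det (φ : R →+* K0) N
      have h6 : (φ : R →+* K0).mapMatrix N = N.map φ := rfl
      rw [h6, h3, Matrix.det_one] at h5
      exact h5
    have h5 : N.det ≠ 0 := by
      intro h0
      rw [h0, map_zero] at h4
      exact zero_ne_one h4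
    have h6 : (N.map R.val).det ≠ 0 := by
      have h7 := RingHom.map_det (R.val : R →+* K) N
      have h8 : (R.val : R →+* K).mapMatrix N = N.map R.val := rfl
      rw [h8] at h7
      rw [← h7]
      intro h0
      exact h5 (Subtype.ext h0)
    have h7 : N.map R.val = (AR.map R.val) * ((C0.map (algebraMap K0 R)).map R.val) := by
      rw [hN, Matrix.map_mul]
    rw [h7] at h6
    have h8 := sm_indep h6
    have h9 : (fun j => (AR.map R.val) j) = fun j => sm_g β.1 (f0 j) := by
      funext j i
      exact hval _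
    rw [h9] at h8
    exact h8
  have h3 := h β0
  rw [sm_tan0] at h3
  rw [sm_tan]
  omega

end H79.BC
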