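import Pool.Agent.H79.BC.Prime
import Pool.Agent.H79.BC.Hilb
import Pool.Agent.H79.BC.Smooth

/-! # BC.SmC : a smooth projective curve in a weighted projective space over `K0` is one over every extension field, of the same degree and genus (complete) -/

namespace H79.BC

open MvPolynomial RR Module

variable {K0 K : Type} [Field K0] [IsAlgClosed K0] [Field K] [Algebra K0 K] {s : ℕ}

theorem smC_bc {v : Fin s → ℕ} {I : Set (MvPolynomial (Fin s) K0)} {d g : ℕ} (h : SmC v I d g) : SmC v (map (algebraMap K0 K) '' I) d g where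
  vpos := h.vpos
  hom := by
    rintro _ ⟨f, hf, rfl⟩
    obtain ⟨m, hm, h1⟩ := h.hom f hf
    exact ⟨m, hm, fun α hα => h1 fun h0 => hα (by rw [coeff_map, h0, map_zero])⟩
  prime := prime_bc h.prime
  smooth := smooth_bc h.smooth
  stab := stab_bc h.stab
  hilb := by
    obtain ⟨N, hN⟩ := h.hilb
    exact ⟨N, fun m hm => by rw [hilb_bc h.vpos]; exact hN m hm⟩
  dpos := h.dpos

end H79.BC
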