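import Mathlib

/-! # BC.Lin : the ideal generated by polynomials over `K0` in the polynomial ring over `K ⊇ K0`

`fx ψ f` is the value at `f` of the `K`-linear extension of a `K0`-linear functional `ψ` of `K0[z]`.
It vanishes on the ideal of `K[z]` generated by `I` when `ψ` vanishes on the ideal of `K0[z]`
generated by `I` (`fx_mem`), and these functionals separate the elements from that ideal
(`mem_of_fx`). -/

namespace H79.BC

open MvPolynomial

variable {K0 K : Type} [Field K0] [Field K] [Algebra K0 K] {s : ℕ}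

/-- the `K`-linear extension of a functional of `K0[z]` -/
noncomputable def fx (ψ : MvPolynomial (Fin s) K0 →ₗ[K0] K0) (f : MvPolynomial (Fin s) K) : K :=
  ∑ α ∈ f.support, coeff α f * algebraMap K0 K (ψ (monomial α 1))

theorem fx_eq (ψ : MvPolynomial (Fin s) K0 →ₗ[K0] K0) (f : MvPolynomial (Fin s) K)
    {T : Finset (Fin s →₀ ℕ)} (hT : f.support ⊆ T) :
    fx ψ f = ∑ α ∈ T, coeff α f * algebraMap K0 K (ψ (monomial α 1)) := by
  refine Finset.sum_subset hT fun α _ hα => ?_
  rw [notMem_support_iff.1 hα, zero_mul]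

theorem fx_add (ψ : MvPolynomial (Fin s) K0 →ₗ[K0] K0) (f g : MvPolynomial (Fin s) K) : fx ψ (f + g) = fx ψ f + fx ψ g := by
  classical
  rw [fx_eq ψ (f + g) (support_add (p := f) (q := g)), fx_eq ψ f Finset.subset_union_left,
    fx_eq ψ g Finset.subset_union_right, ← Finset.sum_add_distrib]
  refine Finset.sum_congr rfl fun α _ => ?_
  rw [coeff_add, add_mul]

theorem fx_smul (ψ : MvPolynomial (Fin s) K0 →ₗ[K0] K0) (c : K) (f : MvPolynomial (Fin s) K) : fx ψ (C c * f) = c * fx ψ f := by
  have h1 : (C c * f).support ⊆ f.support := by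
    intro α hα
    rw [mem_support_iff, coeff_C_mul] at hα
    rw [mem_support_iff]
    exact fun h => hα (by rw [h, mul_zero])
  rw [fx_eq ψ (C c * f) h1, fx, Finset.mul_sum]
  refine Finset.sum_congr rfl fun α _ => ?_
  rw [coeff_C_mul, mul_assoc]

theorem fx_zero (ψ : MvPolynomial (Fin s) K0 →ₗ[K0] K0) : fx ψ (0 : MvPolynomial (Fin s) K) = 0 := by
  rw [fx, support_zero, Finset.sum_empty]

theorem fx_map (ψ : MvPolynomial (Fin s) K0 →ₗ[K0] K0) (q : MvPolynomial (Fin s) K0) : fx ψ (map (algebraMap K0 K) q) = algebraMap K0 K (ψ q) := by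
  rw [fx_eq ψ _ (support_map_subset (algebraMap K0 K) q)]
  conv_rhs => rw [as_sum q, map_sum, map_sum]
  refine Finset.sum_congr rfl fun α _ => ?_
  have h1 : monomial α (coeff α q) = coeff α q • monomial α (1 : K0) := by
    rw [smul_monomial, smul_eq_mul, mul_one]
  rw [coeff_map, h1, map_smul, smul_eq_mul, map_mul]

theorem fx_mem {I : Set (MvPolynomial (Fin s) K0)} {ψ : MvPolynomial (Fin s) K0 →ₗ[K0] K0} (hψ : ∀ h ∈ Ideal.span I, ψ h = 0)
    {f : MvPolynomial (Fin s) K} (hf : f ∈ Ideal.span (map (algebraMap K0 K) '' I)) : fx ψ f = 0 := by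
  have key : ∀ g : MvPolynomial (Fin s) K, fx ψ (g * f) = 0 := by
    refine Submodule.span_induction (p := fun x _ => ∀ g : MvPolynomial (Fin s) K,
      fx ψ (g * x) = 0) ?_ ?_ ?_ ?_ hf
    · rintro x ⟨h, hh, rfl⟩ g
      induction g using MvPolynomial.induction_on' with
      | monomial α c =>
        have h1 : monomial α c * map (algebraMap K0 K) h =
            C c * map (algebraMap K0 K) (monomial α 1 * h) := by
          rw [map_mul, map_monomial, map_one, ← mul_assoc, C_mul_monomial, mul_one]
        rw [h1, fx_smul, fx_map, hψ _ (Ideal.mul_mem_left _ _ (Ideal.subset_span hh)), map_zero,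
          mul_zero]
      | add p q hp hq => rw [add_mul, fx_add, hp, hq, add_zero]
    · intro g
      rw [mul_zero, fx_zero]
    · intro x y _ _ hx hy g
      rw [mul_add, fx_add, hx, hy, add_zero]
    · intro a x _ hx g
      rw [smul_eq_mul, ← mul_assoc]
      exact hx _
  have h1 := key 1
  rwa [one_mul] at h1

theorem mem_of_fx {I : Set (MvPolynomial (Fin s) K0)} {f : MvPolynomial (Fin s) K}
    (h : ∀ ψ : MvPolynomial (Fin s) K0 →ₗ[K0] K0, (∀ h ∈ Ideal.span I, ψ h = 0) → fx ψ f = 0) :
    f ∈ Ideal.span (map (algebraMap K0 K) '' I) := by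
  classical
  set N : Submodule K0 (MvPolynomial (Fin s) K0) := (Ideal.span I).restrictScalars K0 with hN
  let b := Module.Basis.ofVectorSpace K0 (MvPolynomial (Fin s) K0 ⧸ N)
  choose B hB using fun j => N.mkQ_surjective (b j)
  have hmem : ∀ p, p ∈ N ↔ p ∈ Ideal.span I := fun p => Iff.rfl
  -- the remainder
  let r : (Fin s →₀ ℕ) → MvPolynomial (Fin s) K0 := fun α =>
    monomial α 1 - ∑ j ∈ (b.repr (N.mkQ (monomial α 1))).support,
      (b.repr (N.mkQ (monomial α 1)) j) • B j
  have hr : ∀ α, r α ∈ Ideal.span I := by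
    intro α
    rw [← hmem, ← N.ker_mkQ, LinearMap.mem_ker]
    change N.mkQ (monomial α 1 - ∑ j ∈ (b.repr (N.mkQ (monomial α 1))).support,
      (b.repr (N.mkQ (monomial α 1)) j) • B j) = 0
    rw [map_sub, map_sum, sub_eq_zero]
    simp only [map_smul, hB]
    exact (b.linearCombination_repr (N.mkQ (monomial α 1))).symm
  let T := f.support.biUnion fun α => (b.repr (N.mkQ (monomial α 1))).support
  have hmon : ∀ α ∈ f.support, monomial α (1 : K0) = r α +
      ∑ j ∈ T, (b.repr (N.mkQ (monomial α 1)) j) • B j := by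
    intro α hα
    have h1 : ∑ j ∈ T, (b.repr (N.mkQ (monomial α 1)) j) • B j =
        ∑ j ∈ (b.repr (N.mkQ (monomial α 1))).support,
          (b.repr (N.mkQ (monomial α 1)) j) • B j := by
      symm
      refine Finset.sum_subset (fun j hj => Finset.mem_biUnion.2 ⟨α, hα, hj⟩) fun j _ hj => ?_
      rw [Finsupp.notMem_support_iff.1 hj, zero_smul]
    rw [h1]
    change _ = (monomial α 1 - _) + _
    rw [sub_add_cancel]
  have hψ : ∀ j, ∑ α ∈ f.support, coeff α f *
      algebraMap K0 K (b.repr (N.mkQ (monomial α 1)) j) = 0 := by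
    intro j
    have h1 := h ((b.coord j).comp N.mkQ) (fun p hp => by
      have h2 : N.mkQ p = 0 := by
        rw [← LinearMap.mem_ker, N.ker_mkQ]
        exact hp
      rw [LinearMap.comp_apply, h2, map_zero])
    exact h1
  have hf : f = ∑ α ∈ f.support, C (coeff α f) * map (algebraMap K0 K) (r α) := by
    have h1 : f = ∑ α ∈ f.support, C (coeff α f) * map (algebraMap K0 K) (monomial α 1) := by
      conv_lhs => rw [as_sum f]
      refine Finset.sum_congr rfl fun α _ => ?_
      rw [map_monomial, map_one, C_mul_monomial, mul_one]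
    have h2 : ∑ α ∈ f.support, C (coeff α f) * map (algebraMap K0 K) (monomial α 1) =
        ∑ α ∈ f.support, C (coeff α f) * map (algebraMap K0 K) (r α) +
        ∑ α ∈ f.support, C (coeff α f) * map (algebraMap K0 K)
          (∑ j ∈ T, (b.repr (N.mkQ (monomial α 1)) j) • B j) := by
      rw [← Finset.sum_add_distrib]
      refine Finset.sum_congr rfl fun α hα => ?_
      rw [← mul_add, ← map_add, ← hmon α hα]
    have h3 : ∑ α ∈ f.support, C (coeff α f) * map (algebraMap K0 K)
          (∑ j ∈ T, (b.repr (N.mkQ (monomial α 1)) j) • B j) = 0 := by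
      have h4 : ∀ α ∈ f.support, C (coeff α f) * map (algebraMap K0 K)
          (∑ j ∈ T, (b.repr (N.mkQ (monomial α 1)) j) • B j) =
          ∑ j ∈ T, C (coeff α f * algebraMap K0 K (b.repr (N.mkQ (monomial α 1)) j)) *
            map (algebraMap K0 K) (B j) := by
        intro α _
        rw [map_sum, Finset.mul_sum]
        refine Finset.sum_congr rfl fun j _ => ?_
        rw [smul_eq_C_mul, map_mul, map_C, ← mul_assoc, ← C_mul]
      rw [Finset.sum_congr rfl h4, Finset.sum_comm]
      refine Finset.sum_eq_zero fun j _ => ?_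
      rw [← Finset.sum_mul, ← map_sum, hψ j, map_zero, zero_mul]
    rw [h3, add_zero] at h2
    exact h1.trans h2
  rw [hf]
  refine Ideal.sum_mem _ fun α _ => Ideal.mul_mem_left _ _ ?_
  have h1 : map (algebraMap K0 K) (r α) ∈ (Ideal.span I).map (map (algebraMap K0 K)) :=
    Ideal.mem_map_of_mem _ (hr α)
  rwa [Ideal.map_span] at h1

end H79.BC
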