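import Pool.Agent.H79.BC.Spec
import Pool.Agent.H79.BC.Lin

/-! # BC.Prime : a prime ideal over an algebraically closed field stays prime over an extension field (about 100 lines)

`J = Ideal.span (map '' I)`.  `J ≠ ⊤`: `1 ∈ J` would give `ψ 1 = 0` for all `ψ` which vanish on `span I` (`fx_mem`, `fx_map` with `q = 1`), but `1 ∉ span I`, so there is a functional `ψ` with `ψ 1 ≠ 0` (a functional of the quotient:
`Module.exists_dual_forall_apply_eq_zero_iff`, or `Submodule.exists_le_ker_of_notMem`, or `Module.Projective`/`Basis`).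
Let `f, g ∉ J`, `f * g ∈ J`.  `mem_of_fx`: `ψ`, `ψ'` with `fx ψ f ≠ 0`, `fx ψ' g ≠ 0`.  `f * g ∈ J = Ideal.map (map (algebraMap K0 K)) (span I)`, so `f * g = ∑ l ∈ T, q l * map (h l)`, `h l ∈ span I`, a finite sum (`Submodule.mem_span_set'` or
`Ideal.mem_span..`, `Finsupp.mem_ideal_span_range_iff_exists_finsupp`).  `exists_spec` for `F` = all coefficients of `f`, `g`, `q l`, and the two values `fx ψ f`, `fx ψ' g`: `R`, `φ`.  For a polynomial `p` with coefficients in `R` let
`φ p` be the polynomial with the coefficients `φ (coeff)`: write `p = map R.val p1` (`p1 : MvPolynomial (Fin s) R`, from `MvPolynomial.mem_range_map_iff_coeffs_subset` or by `∑ monomial α ⟨coeff α p, _⟩`) and `φ p := map φ p1`; `R.val` is injective, so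
`f1 * g1 = ∑ q1 l * map (algebraMap K0 R) (h l)` in `R[z]`, hence `φ f1 * φ g1 = ∑ φ (q1 l) * h l ∈ span I`.  Prime: one factor, say `φ f1`, is in `span I`, so `ψ (φ f1) = 0`.  But `ψ (φ f1) = φ (fx ψ f) ≠ 0` (`fx ψ f = ∑ f_α * ψ (z^α)`, `φ` is
`K0`-linear): contradiction. -/

namespace H79.BC

open MvPolynomial

variable {K0 K : Type} [Field K0] [IsAlgClosed K0] [Field K] [Algebra K0 K] {s : ℕ}

/-- the functional of a lifted polynomial -/
private theorem fx_lift (R : Subalgebra K0 K) (φ : R →ₐ[K0] K0) (ψ : MvPolynomial (Fin s) K0 →ₗ[K0] K0) (p1 : MvPolynomial (Fin s) R) :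
    ∃ y : R, fx ψ (map (R.val : R →+* K) p1) = (y : K) ∧ φ y = ψ (map (φ : R →+* K0) p1) := by
  classical
  refine ⟨∑ α ∈ p1.support, coeff α p1 * algebraMap K0 R (ψ (monomial α 1)), ?_, ?_⟩
  · rw [fx_eq ψ _ (support_map_subset (R.val : R →+* K) p1)]
    rw [AddSubmonoidClass.coe_finsetSum]
    refine Finset.sum_congr rfl fun α _ => ?_
    rw [coeff_map]
    rfl
  · rw [map_sum]
    conv_rhs => rw [as_sum p1, map_sum, map_sum]
    refine Finset.sum_congr rfl fun α _ => ?_
    have h1 : monomial α (φ (coeff α p1)) = φ (coeff α p1) • monomial α (1 : K0) := by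
      rw [smul_monomial, smul_eq_mul, mul_one]
    rw [map_mul, AlgHom.commutes, map_monomial]
    change _ = ψ (monomial α (φ (coeff α p1)))
    rw [h1, map_smul, smul_eq_mul]
    rfl

private theorem exists_lift (R : Subalgebra K0 K) (f : MvPolynomial (Fin s) K) (h : ∀ x ∈ f.coeffs, x ∈ R) :
    ∃ f1 : MvPolynomial (Fin s) R, map (R.val : R →+* K) f1 = f := by
  have h1 : f ∈ Set.range (map (σ := Fin s) (R.val : R →+* K)) := by
    rw [mem_range_map_iff_coeffs_subset]
    intro x hx
    exact ⟨⟨x, h x hx⟩, rfl⟩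
  exact h1

theorem prime_bc {I : Set (MvPolynomial (Fin s) K0)} (h : (Ideal.span I).IsPrime) : (Ideal.span (map (algebraMap K0 K) '' I)).IsPrime := by
  classical
  rw [Ideal.isPrime_iff]
  constructor
  · intro htop
    have h1 : (1 : MvPolynomial (Fin s) K0) ∉ (Ideal.span I).restrictScalars K0 := by
      intro h1
      exact h.ne_top ((Ideal.eq_top_iff_one _).2 h1)
    obtain ⟨ψ, hψ1, hψ⟩ := Submodule.exists_le_ker_of_notMem h1
    have h2 : fx ψ (1 : MvPolynomial (Fin s) K) = 0 :=
      fx_mem (fun q hq => LinearMap.mem_ker.1 (hψ hq)) (htop ▸ Submodule.mem_top)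
    have h3 : (1 : MvPolynomial (Fin s) K) = map (algebraMap K0 K) 1 := (map_one _).symm
    rw [h3, fx_map] at h2
    exact hψ1 ((map_eq_zero_iff _ (algebraMap K0 K).injective).1 h2)
  · intro f g hfg
    by_contra hcon
    push Not at hcon
    obtain ⟨hf, hg⟩ := hcon
    have ex : ∀ f : MvPolynomial (Fin s) K, f ∉ Ideal.span (map (algebraMap K0 K) '' I) →
        ∃ ψ : MvPolynomial (Fin s) K0 →ₗ[K0] K0, (∀ h ∈ Ideal.span I, ψ h = 0) ∧ fx ψ f ≠ 0 := by
      intro f hf
      by_contra hne
      push Not at hne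
      exact hf (mem_of_fx hne)
    obtain ⟨ψ, hψ, hψf⟩ := ex f hf
    obtain ⟨ψ', hψ', hψg⟩ := ex g hg
    obtain ⟨n, q, x, hx⟩ := Submodule.mem_span_set'.1 hfg
    choose b hbI hb using fun i => (x i).2
    obtain ⟨R, φ, hR, hne⟩ := exists_spec (K0 := K0)
      (f.coeffs ∪ g.coeffs ∪ Finset.univ.biUnion (fun i => (q i).coeffs) ∪ {fx ψ f, fx ψ' g})
    obtain ⟨f1, hf1⟩ := exists_lift R f fun x hx => hR x (by simp [hx])
    obtain ⟨g1, hg1⟩ := exists_lift R g fun x hx => hR x (by simp [hx])
    choose q1 hq1 using fun i => exists_lift R (q i) fun x hx => hR x (by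
      simp only [Finset.mem_union, Finset.mem_biUnion, Finset.mem_univ, true_and]
      exact Or.inl (Or.inr ⟨i, hx⟩))
    have hinj : Function.Injective (map (σ := Fin s) (R.val : R →+* K)) := map_injective _ Subtype.val_injective
    have e1 : f1 * g1 = ∑ i, q1 i * map (algebraMap K0 R) (b i) := by
      apply hinj
      rw [map_mul, hf1, hg1, ← hx, map_sum]
      refine Finset.sum_congr rfl fun i _ => ?_
      rw [map_mul, hq1, smul_eq_mul, ← hb i, map_map]
      rfl
    have e2 : map (φ : R →+* K0) f1 * map (φ : R →+* K0) g1 ∈ Ideal.span I := by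
      rw [← map_mul, e1, map_sum]
      refine Ideal.sum_mem _ fun i _ => ?_
      rw [map_mul, map_map]
      have h4 : (φ : R →+* K0).comp (algebraMap K0 R) = RingHom.id K0 := φ.comp_algebraMap
      rw [h4, map_id]
      exact Ideal.mul_mem_left _ _ (Ideal.subset_span (hbI i))
    rcases h.mem_or_mem e2 with h5 | h5
    · obtain ⟨y, hy1, hy2⟩ := fx_lift R φ ψ f1
      rw [hf1] at hy1
      rw [hψ _ h5] at hy2
      have h6 := hne (fx ψ f) (by rw [hy1]; exact y.2) (by simp) hψf
      apply h6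
      rw [← hy2]
      congr 1
      exact Subtype.ext hy1
    · obtain ⟨y, hy1, hy2⟩ := fx_lift R φ ψ' g1
      rw [hg1] at hy1
      rw [hψ' _ h5] at hy2
      have h6 := hne (fx ψ' g) (by rw [hy1]; exact y.2) (by simp) hψg
      apply h6
      rw [← hy2]
      congr 1
      exact Subtype.ext hy1

/-- the form of the ideal membership needed for the coefficients of `W` -/
theorem indep_bc {I : Set (MvPolynomial (Fin s) K0)} {p q : MvPolynomial (Fin s) K0}
    (h : ∀ c e : K0, C c * p - C e * q ∈ Ideal.span I → c = 0 ∧ e = 0) (c e : K)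
    (h1 : C c * map (algebraMap K0 K) p - C e * map (algebraMap K0 K) q ∈ Ideal.span (map (algebraMap K0 K) '' I)) : c = 0 ∧ e = 0 := by
  classical
  have key : ∀ ψ : MvPolynomial (Fin s) K0 →ₗ[K0] K0, (∀ h ∈ Ideal.span I, ψ h = 0) →
      c * algebraMap K0 K (ψ p) - e * algebraMap K0 K (ψ q) = 0 := by
    intro ψ hψ
    have h2 := fx_mem hψ h1
    have h3 : C c * map (algebraMap K0 K) p - C e * map (algebraMap K0 K) q =
        C c * map (algebraMap K0 K) p + C (-e) * map (algebraMap K0 K) q := by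
      rw [map_neg]
      ring
    rw [h3, fx_add, fx_smul, fx_smul, fx_map, fx_map] at h2
    linear_combination h2
  constructor
  · have h2 : p ∉ (Ideal.span I).restrictScalars K0 ⊔ Submodule.span K0 {q} := by
      intro h2
      obtain ⟨y, hy, z, hz, hyz⟩ := Submodule.mem_sup.1 h2
      obtain ⟨a, rfl⟩ := Submodule.mem_span_singleton.1 hz
      refine one_ne_zero (h 1 a ?_).1
      have h3 : C 1 * p - C a * q = y := by
        rw [← hyz, smul_eq_C_mul, map_one]
        ring
      rw [h3]
      exact hy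
    obtain ⟨ψ, hψ1, hψ⟩ := Submodule.exists_le_ker_of_notMem h2
    have h4 := key ψ fun y hy => LinearMap.mem_ker.1 (hψ (Submodule.mem_sup_left hy))
    have h5 : ψ q = 0 := LinearMap.mem_ker.1 (hψ (Submodule.mem_sup_right (Submodule.mem_span_singleton_self q)))
    rw [h5, map_zero, mul_zero, sub_zero] at h4
    rcases mul_eq_zero.1 h4 with h6 | h6
    · exact h6
    · exact absurd ((map_eq_zero_iff _ (algebraMap K0 K).injective).1 h6) hψ1
  · have h2 : q ∉ (Ideal.span I).restrictScalars K0 ⊔ Submodule.span K0 {p} := by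
      intro h2
      obtain ⟨y, hy, z, hz, hyz⟩ := Submodule.mem_sup.1 h2
      obtain ⟨a, rfl⟩ := Submodule.mem_span_singleton.1 hz
      refine one_ne_zero (h a 1 ?_).2
      have h3 : C a * p - C 1 * q = -y := by
        rw [← hyz, smul_eq_C_mul, map_one]
        ring
      rw [h3]
      exact neg_mem hy
    obtain ⟨ψ, hψ1, hψ⟩ := Submodule.exists_le_ker_of_notMem h2
    have h4 := key ψ fun y hy => LinearMap.mem_ker.1 (hψ (Submodule.mem_sup_left hy))
    have h5 : ψ p = 0 := LinearMap.mem_ker.1 (hψ (Submodule.mem_sup_right (Submodule.mem_span_singleton_self p)))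
    rw [h5, map_zero, mul_zero, zero_sub, neg_eq_zero] at h4
    rcases mul_eq_zero.1 h4 with h6 | h6
    · exact h6
    · exact absurd ((map_eq_zero_iff _ (algebraMap K0 K).injective).1 h6) hψ1

end H79.BC
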