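import Mathlib

/-! # BC.Spec : specialisation of finitely many elements of an extension field (MATHLIB ONLY, about 60 lines)

`K0` algebraically closed, `K ⊇ K0` a field, `F` a finite subset of `K`.  Put `p := ∏ x ∈ F.filter (· ≠ 0), x`, `R := Algebra.adjoin K0 (F ∪ {p⁻¹})` (a finitely generated `K0`-algebra, `Subalgebra.fg_adjoin_finset` or `Algebra.FiniteType`; a domain, hence
nontrivial).  Let `M` be a maximal ideal of `R`; `R ⧸ M` is a field of finite type over `K0`, hence algebraic (Zariski's lemma: `finite_of_finite_type_of_isJacobsonRing`, `algebraMap` bijective because `K0` is algebraically closed: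
`IsAlgClosed.algebraMap_bijective_of_isIntegral`), which gives `φ : R →ₐ[K0] K0`.  For `x ∈ F`, `x ≠ 0`, `x` divides `p`, which is a unit of `R` (`p * p⁻¹ = 1`), so `φ x ≠ 0`. -/

namespace H79.BC

variable {K0 K : Type} [Field K0] [IsAlgClosed K0] [Field K] [Algebra K0 K]

/-- a homomorphism to `K0` from a subalgebra which contains `F`, and which does not kill the nonzero elements of `F` -/
theorem exists_spec (F : Finset K) : ∃ (R : Subalgebra K0 K) (φ : R →ₐ[K0] K0), (∀ x ∈ F, x ∈ R) ∧ ∀ x (hx : x ∈ R), x ∈ F → x ≠ 0 → φ ⟨x, hx⟩ ≠ 0 := by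
  classical
  set G : Finset K := F.filter (fun x => x ≠ 0) with hG
  set p : K := ∏ x ∈ G, x with hp
  have hp0 : p ≠ 0 := Finset.prod_ne_zero_iff.mpr (fun x hx => (Finset.mem_filter.mp hx).2)
  set F' : Finset K := insert p⁻¹ F with hF'
  set R : Subalgebra K0 K := Algebra.adjoin K0 (F' : Set K) with hR
  have hmem : ∀ x ∈ F, x ∈ R := fun x hx => Algebra.subset_adjoin (by simp [hF', hx])
  have hpinv : p⁻¹ ∈ R := Algebra.subset_adjoin (by simp [hF'])
  haveI : Algebra.FiniteType K0 R := (Subalgebra.fg_iff_finiteType R).mp (Subalgebra.fg_adjoin_finset F')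
  obtain ⟨M, hM⟩ := Ideal.exists_maximal R
  letI : Field (R ⧸ M) := Ideal.Quotient.field M
  haveI : Algebra.FiniteType K0 (R ⧸ M) := Algebra.FiniteType.of_surjective (Ideal.Quotient.mkₐ K0 M) (Ideal.Quotient.mkₐ_surjective K0 M)
  haveI : Module.Finite K0 (R ⧸ M) := finite_of_finite_type_of_isJacobsonRing K0 (R ⧸ M)
  have hbij : Function.Bijective (algebraMap K0 (R ⧸ M)) := IsAlgClosed.algebraMap_bijective_of_isIntegral
  let e : K0 ≃ₐ[K0] (R ⧸ M) := AlgEquiv.ofBijective (Algebra.ofId K0 (R ⧸ M)) hbij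
  refine ⟨R, (e.symm : (R ⧸ M) →ₐ[K0] K0).comp (Ideal.Quotient.mkₐ K0 M), hmem, ?_⟩
  intro x hx hxF hx0 h0
  have hxG : x ∈ G := Finset.mem_filter.mpr ⟨hxF, hx0⟩
  have hy : (∏ z ∈ G.erase x, z) ∈ R := Subalgebra.prod_mem R (fun z hz => hmem z (Finset.mem_filter.mp (Finset.mem_of_mem_erase hz)).1)
  have hunit : (⟨x, hx⟩ : R) * (⟨_, hy⟩ * ⟨p⁻¹, hpinv⟩) = 1 := by
    apply Subtype.ext
    show x * ((∏ z ∈ G.erase x, z) * p⁻¹) = 1
    rw [← mul_assoc, Finset.mul_prod_erase G (fun z => z) hxG]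
    exact mul_inv_cancel₀ hp0
  have h1 := congrArg (((e.symm : (R ⧸ M) →ₐ[K0] K0).comp (Ideal.Quotient.mkₐ K0 M))) hunit
  rw [map_mul, h0, zero_mul, map_one] at h1
  exact zero_ne_one h1

end H79.BC
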